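import Pool.Agent.W10.HS.G

/-! # Squares of zero-one integers form an H-set, with an explicit rate -/

namespace Pool.Agent.Results.MP_19dfdc_nt.SquaresExpRate

open Filter Topology

/-- The positive integers whose base-`b` digits are all `0` or `1` (for `b ≥ 2`): the sums of
`b ^ d` over a nonempty finite set of exponents `d`. -/
def DD (b : ℕ) : Set ℕ := {s | ∃ S : Finset ℕ, S.Nonempty ∧ s = ∑ d ∈ S, b ^ d}

/-- The set of the squares of the elements of `DD b`. -/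
def DD2 (b : ℕ) : Set ℕ := {n | ∃ s ∈ DD b, n = s ^ 2}

/-- The distance from `x` to the nearest integer. -/
noncomputable def dist (x : ℝ) : ℝ := |x - round x|

/-- `H` is an H-set: a set of positive integers for which some `f` tending to `0` has, for all
real `γ` and all `N` such that `H` has an element `≤ N`, that some `n ∈ H` with `n ≤ N` has
`dist (n γ) ≤ f N`. -/
def IsHSet (H : Set ℕ) : Prop :=
  0 ∉ H ∧ ∃ f : ℕ → ℝ, Tendsto f atTop (𝓝 0) ∧
    ∀ (γ : ℝ) (N : ℕ), (∃ n ∈ H, n ≤ N) → ∃ n ∈ H, n ≤ N ∧ dist (n * γ) ≤ f N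

theorem result : ∀ b : ℕ, 2 ≤ b → IsHSet (DD2 b) ∧
    ∀ (γ : ℝ) (N : ℕ), 1 ≤ N → ∃ s ∈ DD b, s ^ 2 ≤ N ∧
      dist ((s : ℝ) ^ 2 * γ) ≤
        b * Real.exp (-(Real.log N ^ (1 / 3 : ℝ) / (50 * (b : ℝ) ^ 3))) := by
  intro b hb
  have hb0 : (0 : ℝ) < b := by positivity
  have hpos : 0 ∉ DD2 b := by
    rintro ⟨s, ⟨S, hS, hs⟩, h0⟩
    have h1 : 0 < s := by
      rw [hs]
      exact Finset.sum_pos (fun d _ => by positivity) hS
    have : 0 < s ^ 2 := by positivity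
    omega
  have hone : 1 ∈ DD2 b := ⟨1, ⟨{0}, ⟨0, by simp⟩, by simp⟩, by norm_num⟩
  have key : ∀ (γ : ℝ) (N : ℕ), 1 ≤ N → ∃ n ∈ DD2 b, n ≤ N ∧ dist ((n : ℝ) * γ) ≤
      b * Real.exp (-(Real.log N ^ (1 / 3 : ℝ) / (50 * (b : ℝ) ^ 3))) := by
    intro γ N hN
    apply Pool.Agent.W10.HS.rate b hb (DD2 b) hone γ _ N hN
    intro t ht
    obtain ⟨s, hs, hs2, hs3⟩ := Pool.Agent.W10.HS.core_two b hb t ht γ
    refine ⟨s ^ 2, ⟨s, hs, rfl⟩, hs2, ?_⟩
    push_cast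
    exact hs3
  refine ⟨⟨hpos, fun N => b * Real.exp (-(Real.log N ^ (1 / 3 : ℝ) / (50 * (b : ℝ) ^ 3))),
    ?_, ?_⟩, ?_⟩
  · have h1 : Tendsto (fun N : ℕ => Real.log (N : ℝ)) atTop atTop :=
      Real.tendsto_log_atTop.comp tendsto_natCast_atTop_atTop
    have h2 : Tendsto (fun N : ℕ => Real.log (N : ℝ) ^ (1 / 3 : ℝ)) atTop atTop :=
      (tendsto_rpow_atTop (by norm_num)).comp h1
    have h3 : Tendsto (fun N : ℕ => Real.log (N : ℝ) ^ (1 / 3 : ℝ) / (50 * (b : ℝ) ^ 3))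
        atTop atTop := h2.atTop_div_const (by positivity)
    have h4 := (Real.tendsto_exp_neg_atTop_nhds_zero.comp h3).const_mul (b : ℝ)
    rw [mul_zero] at h4
    exact h4
  · rintro γ N ⟨n, hn, hnN⟩
    have hn1 : 1 ≤ n := by
      rcases Nat.eq_zero_or_pos n with rfl | h
      · exact absurd hn hpos
      · exact h
    exact key γ N (hn1.trans hnN)
  · intro γ N hN
    obtain ⟨n, ⟨s, hs, rfl⟩, hnN, hd⟩ := key γ N hN
    refine ⟨s, hs, hnN, ?_⟩
    push_cast at hd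
    exact hd

end Pool.Agent.Results.MP_19dfdc_nt.SquaresExpRate
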